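import Pool.Agent.ATW.Stmts
import Pool.Agent.Helper18_AT8.HGT
import Pool.Agent.Helper50_PP.Ffa

/-!
# Squad ATW, row HT2: all heights are zero
-/

open scoped BigOperators

noncomputable section

namespace Pool.Agent.PP.TW.H23

open Pool.Agent.Helper51_AWC Pool.Agent.Helper79_WRA Pool.Agent.PP Pool.Agent.PP.KF
open Pool.Agent.PP.K9 Pool.Agent.PP.K9.H97 Pool.Agent.PP.H75 Pool.Agent.PP.T3 Pool.Agent.PP.T2
open Pool.Agent.PP.T5 Pool.Agent.PP.TB
open Pool.Agent.PP.T8 (rs pw fv rd Ip Rv vv Dat Fr)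

attribute [local instance] Ideal.Quotient.field

/-- a rational number in the maximal ideal of the local ring is `2` times an element of it -/
theorem half_RM {M : Ideal (integralClosure ℤ ℂ)} [M.IsMaximal]
    (hM : ((2 : ℕ) : integralClosure ℤ ℂ) ∈ M) {z : ℂ} (q : ℚ) (hq : z = (q : ℂ))
    (hz : z ∈ RM M) (h0 : rr M z = 0) : z / 2 ∈ RM M := by
  have hden : (q.den : ℂ) ≠ 0 := by exact_mod_cast q.den_nz
  have h1 : z * (q.den : ℂ) = ((q.num : ℤ) : ℂ) := by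
    rw [hq]
    have h2 : q * (q.den : ℚ) = (q.num : ℚ) := Rat.mul_den_eq_num q
    exact_mod_cast congrArg (fun x : ℚ => (x : ℂ)) h2
  have h3 : rr M ((q.num : ℤ) : ℂ) = 0 := by
    rw [← h1, rr_mul hz (rr_nat q.den).1, h0, zero_mul]
  have h4 : ((2 : ℕ) : ℤ) ∣ q.num := (dvd_of_rr (M := M) Nat.prime_two hM).1 h3
  have h5 : ¬ 2 ∣ q.den := by
    intro h6
    have h7 : 2 ∣ q.num.natAbs := Int.natCast_dvd.1 h4
    have h8 : 2 ∣ Nat.gcd q.num.natAbs q.den := Nat.dvd_gcd h7 h6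
    have h9 : Nat.gcd q.num.natAbs q.den = 1 := q.reduced
    rw [h9] at h8
    exact absurd h8 (by norm_num)
  obtain ⟨n, hn⟩ := h4
  have h6 := (RM M).mul_mem (rr_int (M := M) n).1 (inv_nat_RM (M := M) Nat.prime_two hM h5)
  have h7 : z / 2 = ((n : ℤ) : ℂ) * ((q.den : ℂ))⁻¹ := by
    rw [hn] at h1
    push_cast at h1
    field_simp
    linear_combination h1
  rw [h7]
  exact h6

/-- HT2: all heights are zero. -/
theorem ht2 (zab : TB.ZabStmt) (pjz : TB.PjzStmt) (poz : TB.PozStmt) (zcp : TB.ZcpStmt)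
    (mmv : MmvStmt) (inr : T3.InrStmt) (dcg : T8.DcgStmt) (nrm : T8.NrmStmt) (inx : K9.InxStmt)
    (dpv : DpvStmt) (loc : T3.LocStmt) : Ht2Stmt := by
  classical
  intro M _ hM G _ _ a e V γ b d c ε y w S χ hχ u0 hu0
  have hℓ : Fact (Nat.Prime 2) := ⟨Nat.prime_two⟩
  have D := S.dat
  have hχI : χ ∈ Irr G := hχ.1
  have hF : GoodF 2 (FF M) := H50.fld 2 Nat.prime_two M hM
  have ha : 0 < a := lt_of_lt_of_le (by norm_num) S.le
  have hix : ¬ 2 ∣ ix V γ :=
    inx 2 M hM G e D.ld.blk V D.ld.tp D.ld.ab γ D.ld.gam.supp D.ld.gam.blk D.ld.und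
  obtain ⟨-, hpP⟩ := dpv 2 M hM G e V γ b d c ε D
  -- the elements of `V`
  have hpow : ∀ u ∈ V, u ^ 2 ^ a = 1 := by
    intro u hu
    have h1 := Monoid.pow_exponent_eq_one (⟨u, hu⟩ : V)
    rw [S.exp] at h1
    exact congrArg Subtype.val h1
  have hreg : ∀ v ∈ V, v ≠ 1 → Rg V γ v := by
    intro v hv hv1
    refine ⟨hv, hv1, ?_⟩
    intro t ht
    exact S.fr t ht.1 v hv hv1 (Subgroup.mem_centralizer_singleton_iff.1 ht.2)
  -- the values as sums of roots of unity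
  have hζ := Complex.isPrimitiveRoot_exp (2 ^ a) (pow_pos hℓ.out.pos a).ne'
  have hval : ∀ u, Rg V γ u → ∃ m : ℕ → ℤ, ∀ j : ℕ, ¬ 2 ∣ j →
      vv M b d (u ^ j) χ = ∑ i ∈ Finset.range (2 ^ a),
        (m i : ℂ) * Complex.exp (2 * Real.pi * Complex.I / ((2 ^ a : ℕ) : ℂ)) ^ (i * j) := by
    intro u hu
    obtain ⟨m, hm⟩ := inr M G u (2 ^ a) (pow_pos hℓ.out.pos a) (hpow u hu.1) (b u)
      (D.lc u hu).blk.ix (d u) (D.dg u hu) _ hζ χ hχI
    have hd : (d u : ℂ) ≠ 0 := by exact_mod_cast (D.dg u hu).1.ne'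
    refine ⟨m, fun j hj => ?_⟩
    obtain ⟨-, hC, e2, e3⟩ := hpP u hu j hj
    unfold vv
    rw [e2, e3, hC, hm j, mul_div_cancel_left₀ _ hd]
  have hint : ∀ u, Rg V γ u → IsIntegral ℤ (vv M b d u χ) := by
    intro u hu
    obtain ⟨m, hm⟩ := hval u hu
    have h1 := hm 1 (by norm_num)
    rw [pow_one] at h1
    rw [h1]
    refine IsIntegral.sum _ fun i _ => IsIntegral.mul ?_ ?_
    · exact isIntegral_algebraMap (R := ℤ) (A := ℂ) (x := m i)
    · exact (hζ.isIntegral (pow_pos hℓ.out.pos a)).pow _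
  refine ⟨RM_of_int (hint u0 hu0), fun hcon => ?_⟩
  -- the residues are units
  set ρ : ℂ := (Nat.card G * c : ℂ) / (Nat.card (Subgroup.centralizer (V : Set G)) * χ 1) with hρ
  have hX : ∀ u, Rg V γ u → vv M b d u χ * ρ ∈ RM M ∧ rr M (vv M b d u χ * ρ) ≠ 0 := by
    intro u hu
    obtain ⟨h1, h2⟩ := dcg 2 M hM G e V γ b d c ε D u hu χ hχ
    refine ⟨h1, ?_⟩
    rw [h2, ← (rr_int (M := M) (ε u * ix V γ)).2]
    intro h3
    have h4 := (dvd_of_rr (M := M) hℓ.out hM).1 h3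
    have h5 : ((2 : ℕ) : ℤ) ∣ (ix V γ : ℤ) := by
      rcases D.sg u hu with h | h
      · rwa [h, one_mul] at h4
      · rw [h, neg_one_mul] at h4
        exact (Int.dvd_neg.1 h4)
    exact hix (Int.natCast_dvd_natCast.1 h5)
  have hv0 : ∀ u, Rg V γ u → vv M b d u χ ≠ 0 := by
    intro u hu h0
    apply (hX u hu).2
    rw [h0, zero_mul, rr_zero]
  obtain ⟨hi1, hi2⟩ := inv_RM (hX u0 hu0).1 (hX u0 hu0).2
  have hρ0 : ρ ≠ 0 := right_ne_zero_of_mul hi2
  have hρi : ρ⁻¹ = vv M b d u0 χ * (vv M b d u0 χ * ρ)⁻¹ := by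
    have h4 : vv M b d u0 χ ≠ 0 := hv0 u0 hu0
    field_simp
  have hρR : ρ⁻¹ ∈ RM M := by
    rw [hρi]
    exact (RM M).mul_mem (RM_of_int (hint u0 hu0)) hi1
  have hρr : rr M ρ⁻¹ = 0 := by
    rw [hρi, rr_mul (RM_of_int (hint u0 hu0)) hi1, hcon, zero_mul]
  obtain ⟨dχ, -, hdχ⟩ := irr_one hχI
  have hρQ : ρ⁻¹ = ((((Nat.card (Subgroup.centralizer (V : Set G)) : ℚ) * dχ) /
      ((Nat.card G : ℚ) * c) : ℚ) : ℂ) := by
    rw [hρ, hdχ, inv_div]
    push_cast
    rfl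
  have hhalf : ρ⁻¹ / 2 ∈ RM M := half_RM hM _ hρQ hρR hρr
  have hdiv : ∀ u, Rg V γ u → vv M b d u χ / 2 ^ 1 ∈ RM M := by
    intro u hu
    have h3 := (RM M).mul_mem (hX u hu).1 hhalf
    have h6 : vv M b d u χ * ρ * (ρ⁻¹ / 2) = vv M b d u χ / 2 ^ 1 := by
      field_simp
    rwa [h6] at h3
  -- the inequality for one regular element
  have hone : ∀ u, Rg V γ u → ((2 ^ (a - 1) * (2 - 1) * 2 ^ (2 * 1) : ℕ) : ℝ) ≤
      ∑ j ∈ (Finset.range (2 ^ a)).filter (fun j => ¬ 2 ∣ j),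
        Complex.normSq (vv M b d (u ^ j) χ) := by
    intro u hu
    obtain ⟨m, hvj⟩ := hval u hu
    have h1 := nrm 2 M hM a 0 1 ha _ hζ m (by
      intro j hj
      rw [← hvj j hj, pow_zero, div_one]
      exact_mod_cast hdiv _ (hpP u hu j hj).1) (by
      have h2 := hvj 1 (by norm_num)
      rw [pow_one] at h2
      simp only [mul_one] at h2
      rw [← h2]
      exact hv0 u hu)
    refine h1.trans (le_of_eq ?_)
    apply Finset.sum_congr rfl
    intro j hj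
    rw [hvj j (Finset.mem_filter.1 hj).2, pow_zero, div_one]
  -- the sum over all regular elements
  have := Fintype.ofFinite G
  set R : Finset G := Finset.univ.filter (fun u => Rg V γ u) with hR
  set T : ℝ := ∑ u ∈ R, Complex.normSq (vv M b d u χ) with hT
  have hperm : ∀ j : ℕ, ¬ 2 ∣ j →
      ∑ u ∈ R, Complex.normSq (vv M b d (u ^ j) χ) = T := by
    intro j hj
    obtain ⟨j', hj1, hj'⟩ := T8.H18.exists_inv (ℓ := 2) ha hj
    refine Finset.sum_nbij' (fun u => u ^ j) (fun u => u ^ j') ?_ ?_ ?_ ?_ ?_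
    · intro u hu
      exact Finset.mem_filter.2 ⟨Finset.mem_univ _, (hpP u (Finset.mem_filter.1 hu).2 j hj).1⟩
    · intro u hu
      exact Finset.mem_filter.2 ⟨Finset.mem_univ _, (hpP u (Finset.mem_filter.1 hu).2 j' hj1).1⟩
    · intro u hu
      exact (hj' u (hpow u (Finset.mem_filter.1 hu).2.1)).1
    · intro u hu
      exact (hj' u (hpow u (Finset.mem_filter.1 hu).2.1)).2
    · intro u _
      rfl
  have hsum : (R.card : ℝ) * ((2 ^ (a - 1) * (2 - 1) * 2 ^ (2 * 1) : ℕ) : ℝ) ≤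
      ((2 ^ (a - 1) * (2 - 1) : ℕ) : ℝ) * T := by
    calc (R.card : ℝ) * ((2 ^ (a - 1) * (2 - 1) * 2 ^ (2 * 1) : ℕ) : ℝ)
        = ∑ _u ∈ R, ((2 ^ (a - 1) * (2 - 1) * 2 ^ (2 * 1) : ℕ) : ℝ) := by
          rw [Finset.sum_const, nsmul_eq_mul]
      _ ≤ ∑ u ∈ R, ∑ j ∈ (Finset.range (2 ^ a)).filter (fun j => ¬ 2 ∣ j),
            Complex.normSq (vv M b d (u ^ j) χ) :=
          Finset.sum_le_sum fun u hu => hone u (Finset.mem_filter.1 hu).2
      _ = ∑ j ∈ (Finset.range (2 ^ a)).filter (fun j => ¬ 2 ∣ j), T := by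
          rw [Finset.sum_comm]
          exact Finset.sum_congr rfl fun j hj => hperm j (Finset.mem_filter.1 hj).2
      _ = ((2 ^ (a - 1) * (2 - 1) : ℕ) : ℝ) * T := by
          rw [Finset.sum_const, nsmul_eq_mul, T8.H18.card_filter_ndvd ha]
  have hφ : (0 : ℝ) < ((2 ^ (a - 1) * (2 - 1) : ℕ) : ℝ) := by
    have h1 : 0 < 2 ^ (a - 1) * (2 - 1) :=
      Nat.mul_pos (pow_pos hℓ.out.pos _) (by norm_num)
    exact_mod_cast h1
  have hfin : (R.card : ℝ) * 4 ≤ T := by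
    rw [Nat.cast_mul (2 ^ (a - 1) * (2 - 1)) (2 ^ (2 * 1))] at hsum
    have h1 : ((2 ^ (a - 1) * (2 - 1) : ℕ) : ℝ) * ((R.card : ℝ) * ((2 ^ (2 * 1) : ℕ) : ℝ)) ≤
        ((2 ^ (a - 1) * (2 - 1) : ℕ) : ℝ) * T := by
      refine le_trans (le_of_eq ?_) hsum
      ring
    have h2 := le_of_mul_le_mul_left h1 hφ
    norm_num at h2
    exact h2
  -- the regular elements are the elements `≠ 1` of `V`
  have hR1 : R = Finset.univ.filter (fun u => u ∈ V ∧ u ≠ 1) := by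
    rw [hR]
    apply Finset.filter_congr
    intro u _
    exact ⟨fun h => ⟨h.1, h.2.1⟩, fun h => hreg u h.1 h.2⟩
  -- the upper bound
  obtain ⟨⟨b', Z⟩, hiz⟩ := zab 2 M hM G e V γ D.ld
  have hbb : ∀ v, Rg V γ v → b' v = b v := by
    intro v hv
    obtain ⟨h1, h2⟩ := Z.lb v hv.1
    exact (loc 2 (FF M) hF G e V γ D.ld v hv.1).2 _ _ ⟨h1.bx, h1.und, h2⟩ (D.lc v hv)
  have hcz : ∀ v, Rg V γ v → cz V V γ v = 1 := by
    intro v hv
    unfold cz
    rw [Subgroup.relIndex_eq_one]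
    exact le_inf hv.2.2 inf_le_left
  obtain ⟨-, -, -, -, -, hczpos, -⟩ := zcp 2 M hM G e V V γ b' Z
  obtain ⟨⟨x, hx, hxle⟩, -⟩ := pjz 2 M hM G e V V γ b' Z V le_rfl Z.nrm χ hχI
  obtain ⟨-, hpz⟩ := poz 2 M hM G e V V γ b' Z 1 V.one_mem
  obtain ⟨p, hp, hpe⟩ := hpz χ hχ
  have hterm : ∀ v, Rg V γ v → (Nat.card V : ℂ) * ((cz V V γ v : ℂ) *
      mm M 2 (Cu v) v (b' v) χ χ) = ((Complex.normSq (vv M b d v χ) : ℝ) : ℂ) := by
    intro v hv
    rw [hcz v hv, hbb v hv, Nat.cast_one, one_mul, mmv 2 M hM G e V γ b d c ε D v hv χ hχI χ hχI,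
      Complex.mul_conj]
  have hVpos : (0 : ℝ) < Nat.card V := by exact_mod_cast Nat.card_pos
  have hPw : (Nat.card V : ℂ) * Pw M 2 V V V γ b' χ χ =
      (((Nat.card V : ℝ) * (cz V V γ (1 : G) : ℝ) * p + T : ℝ) : ℂ) := by
    unfold Pw
    have e1 : ∑ᶠ w : V, (cz V V γ (w : G) : ℂ) * mm M 2 (Cu (w : G)) w (b' w) χ χ =
        ∑ u ∈ Finset.univ.filter (fun u : G => u ∈ V),
          (cz V V γ u : ℂ) * mm M 2 (Cu u) u (b' u) χ χ := by
      rw [finsum_eq_sum_of_fintype]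
      rw [Finset.sum_subtype (Finset.univ.filter (fun u : G => u ∈ V)) (p := fun u => u ∈ V)
        (fun u => by simp) (fun u => (cz V V γ u : ℂ) * mm M 2 (Cu u) u (b' u) χ χ)]
    have e2 : Finset.univ.filter (fun u : G => u ∈ V) = insert 1 R := by
      ext u
      rw [hR1]
      simp only [Finset.mem_filter, Finset.mem_univ, true_and, Finset.mem_insert]
      constructor
      · intro h
        by_cases h1 : u = 1
        · exact Or.inl h1
        · exact Or.inr ⟨h, h1⟩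
      · rintro (h | h)
        · rw [h]
          exact V.one_mem
        · exact h.1
    have e3 : (1 : G) ∉ R := by
      rw [hR1]
      simp
    rw [e1, e2, Finset.sum_insert e3, mul_add, Finset.mul_sum]
    have e4 : ∑ u ∈ R, (Nat.card V : ℂ) * ((cz V V γ u : ℂ) * mm M 2 (Cu u) u (b' u) χ χ) =
        ((T : ℝ) : ℂ) := by
      rw [hT, Complex.ofReal_sum]
      exact Finset.sum_congr rfl fun u hu => hterm u (Finset.mem_filter.1 hu).2
    rw [e4, hpe]
    push_cast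
    ring
  rw [hx] at hPw
  have hPw' : (Nat.card V : ℝ) * x = (Nat.card V : ℝ) * (cz V V γ (1 : G) : ℝ) * p + T := by
    exact_mod_cast hPw
  have hc1 : (0 : ℝ) < (cz V V γ (1 : G) : ℝ) := by exact_mod_cast hczpos 1 V.one_mem
  have hx3 : x ≤ 3 := by
    rw [hiz] at hxle
    exact hxle.trans (by exact_mod_cast S.i3)
  have hTlt : T < 3 * (Nat.card V : ℝ) := by
    have h1 : 0 < (Nat.card V : ℝ) * (cz V V γ (1 : G) : ℝ) * p := by positivity
    have h2 : (Nat.card V : ℝ) * x ≤ (Nat.card V : ℝ) * 3 :=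
      mul_le_mul_of_nonneg_left hx3 hVpos.le
    linarith
  -- the cardinality
  have hRc : R.card + 1 = Nat.card V := by
    have e2 : Finset.univ.filter (fun u : G => u ∈ V) = insert 1 R := by
      ext u
      rw [hR1]
      simp only [Finset.mem_filter, Finset.mem_univ, true_and, Finset.mem_insert]
      constructor
      · intro h
        by_cases h1 : u = 1
        · exact Or.inl h1
        · exact Or.inr ⟨h, h1⟩
      · rintro (h | h)
        · rw [h]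
          exact V.one_mem
        · exact h.1
    have e3 : (1 : G) ∉ R := by
      rw [hR1]
      simp
    rw [← Finset.card_insert_of_notMem e3, ← e2, Nat.card_eq_fintype_card]
    exact (Fintype.card_subtype _).symm
  have hV4 : 4 ≤ Nat.card V := by
    have h1 : orderOf (⟨y, S.yV⟩ : V) = 2 ^ a := by
      rw [← S.oy]
      exact Subgroup.orderOf_mk y S.yV
    have h2 : orderOf (⟨y, S.yV⟩ : V) ≤ Nat.card V :=
      Nat.le_of_dvd Nat.card_pos (orderOf_dvd_natCard _)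
    rw [h1] at h2
    have h3 : 2 ^ 2 ≤ 2 ^ a := Nat.pow_le_pow_right (by norm_num) S.le
    omega
  have h1 : (R.card : ℝ) + 1 = Nat.card V := by exact_mod_cast hRc
  have h2 : (4 : ℝ) ≤ Nat.card V := by exact_mod_cast hV4
  linarith

end Pool.Agent.PP.TW.H23
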